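import Pool.Agent.H8.JS.Targets
import Pool.Agent.H58.TW.FA

/-!
# MP_64fb07_lc, board `js8_modules`: module FI, definability of the initial configuration
-/

set_option autoImplicit false

namespace Pool.Agent.H54.JS

open Pool.Agent.H69.Sp Pool.Agent.H69.Mt Pool.Agent.H16.TO Pool.Agent.H8.PL Pool.Agent.H8.JS

theorem pf_fi (hFG : J_FG) (hFB : J_FB) : J_FI := by
  intro M eq es
  obtain ⟨g1, g2, g3, g4⟩ := hFG
  have h1 : ∀ j : Fin (M.k + 1), FD (fun N E v =>
      ((j ≠ 0 ∨ v 2 ≤ v 5) → Ex1 N (fun s => E (3 + 2 * j.1) [v 0, v 5, s]) (es .bl)) ∧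
        ∀ b : Bool, (j = 0 ∧ v 5 < v 2 ∧ EncB N E (v 2) (v 5) b) →
          Ex1 N (fun s => E (3 + 2 * j.1) [v 0, v 5, s]) (es (.bit b))) := by
    intro j
    refine (((FD.const (j ≠ 0)).or (FD.le 2 5)).imp (g3 _ 0 5 _ (by omega) (by omega))).and ?_
    refine (Pool.Agent.H58.TW.pf_fi Bool _ fun b => ?_).1
    exact ((FD.const (j = 0)).and ((FD.lt 5 2).and (hFB b))).imp
      (g3 _ 0 5 _ (by omega) (by omega))
  refine ((g1 1 0 (eq M.start) (by omega)).and (Pool.Agent.H58.TW.pf_fi (Fin (M.k + 1))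
    _ fun j => (g1 (2 + 2 * j.1) 0 0 (by omega)).and (FD.all 5 (h1 j))).1).congr
    fun N E v hv => ?_
  simp only [EncI, Function.update_self, Function.update_of_ne, ne_eq, not_false_eq_true,
    Nat.reduceEqDiff, OfNat.ofNat_ne_zero, OfNat.zero_ne_ofNat]

end Pool.Agent.H54.JS
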